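import Pool.Agent.Helper91_PR.Defs

/-!
Independence of the descent from the lower levels (MP_ee92c9_pr).
-/

set_option autoImplicit false

open MeasureTheory ProbabilityTheory
open scoped ENNReal NNReal

namespace Pool.Agent.Helper25PR

open Pool.Agent.Helper91PC Pool.Agent.Helper91PR

variable {a : ℕ} {Ω : Type} [MeasurableSpace Ω] {μ : Measure Ω}
  {φ : Fin (2 * a + 1) → Fin (2 * a + 1) → ℝ} {D : ℝ}

theorem desc_meas (R : Rule a Ω μ φ D) (P : Measure ℝ) (v : ℝ) (n : ℤ) (t : ℕ) :
    Measurable fun ω : ℤ → Ω => desc R P v ω n t := by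
  induction t with
  | zero => exact measurable_const
  | succ t ih =>
    have h1 : Measurable fun ω : ℤ → Ω => (cv a P v (n - t - 1) (desc R P v ω n t), ω (n - t - 1)) :=
      ((Measurable.of_discrete (f := fun j : ℤ => cv a P v (n - t - 1) j)).comp ih).prodMk
        (measurable_pi_apply _)
    have h2 : Measurable fun ω : ℤ → Ω =>
        R.s (cv a P v (n - t - 1) (desc R P v ω n t)) (ω (n - t - 1)) := R.meas.comp h1
    exact (Measurable.of_discrete (f := fun z : ℤ × Fin (2 * a + 1) => child a z.1 z.2)).comp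
      (ih.prodMk h2)

theorem desc_congr (R : Rule a Ω μ φ D) (P : Measure ℝ) (v : ℝ) (n : ℤ) (t : ℕ) {ω ω' : ℤ → Ω}
    (h : ∀ k ∈ Finset.Ico (n - t) n, ω k = ω' k) : desc R P v ω n t = desc R P v ω' n t := by
  induction t with
  | zero => rfl
  | succ t ih =>
    have h1 := ih (fun k hk => by
      apply h
      rw [Finset.mem_Ico] at hk ⊢
      push_cast
      omega)
    have h2 : ω (n - t - 1) = ω' (n - t - 1) := by
      apply h
      rw [Finset.mem_Ico]
      push_cast
      omega
    simp only [desc]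
    rw [h1, h2]

theorem indep_of_dep [IsProbabilityMeasure μ] {ι : Type*} [MeasurableSpace ι] {F : (ℤ → Ω) → ι}
    (hF : Measurable F) (S : Finset ℤ)
    (hdep : ∀ ω ω' : ℤ → Ω, (∀ k ∈ S, ω k = ω' k) → F ω = F ω') {k : ℤ} (hk : k ∉ S) :
    IndepFun F (fun ω => ω k) (Measure.infinitePi fun _ : ℤ => μ) := by
  classical
  have hne : Nonempty Ω := by
    by_contra hcon
    rw [not_nonempty_iff] at hcon
    have h1 : μ Set.univ = 1 := measure_univ
    have h2 : (Set.univ : Set Ω) = ∅ := Set.univ_eq_empty_iff.2 hcon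
    rw [h2, measure_empty] at h1
    exact zero_ne_one h1
  obtain ⟨ω0⟩ := hne
  let ext : (S → Ω) → (ℤ → Ω) := fun y i => if h : i ∈ S then y ⟨i, h⟩ else ω0
  have hext : Measurable ext := by
    apply measurable_pi_lambda
    intro i
    by_cases h : i ∈ S
    · simp only [ext, h, dif_pos]
      exact measurable_pi_apply _
    · simp only [ext, h, dif_neg, not_false_eq_true]
      exact measurable_const
  have hFe : ∀ ω, F ω = F (ext (fun i : S => ω i)) := by
    intro ω
    apply hdep
    intro j hj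
    simp [ext, hj]
  have hI : iIndepFun (fun (i : ℤ) (ω : ℤ → Ω) => ω i) (Measure.infinitePi fun _ : ℤ => μ) :=
    iIndepFun_infinitePi (X := fun _ x => x) (fun _ => measurable_id)
  have hd : Disjoint S {k} := Finset.disjoint_singleton_right.2 hk
  have h1 := hI.indepFun_finset S {k} hd (fun i => measurable_pi_apply i)
  have hm2 : Measurable fun y : (({k} : Finset ℤ) → Ω) => y ⟨k, Finset.mem_singleton_self k⟩ :=
    measurable_pi_apply (⟨k, Finset.mem_singleton_self k⟩ : ({k} : Finset ℤ))
  have h2 := h1.comp (φ := fun y => F (ext y)) (ψ := fun y : (({k} : Finset ℤ) → Ω) =>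
    y ⟨k, Finset.mem_singleton_self k⟩) (hF.comp hext) hm2
  have e1 : (fun y : S → Ω => F (ext y)) ∘ (fun (ω : ℤ → Ω) (i : S) => ω i) = F := by
    funext ω
    exact (hFe ω).symm
  rw [e1] at h2
  exact h2

/-- one step: integrate first over the coordinate `k` -/
theorem step_lintegral [IsProbabilityMeasure μ] {ι : Type*} [Countable ι] [MeasurableSpace ι]
    [MeasurableSingletonClass ι] {F : (ℤ → Ω) → ι}
    (hF : Measurable F) (S : Finset ℤ)
    (hdep : ∀ ω ω' : ℤ → Ω, (∀ k ∈ S, ω k = ω' k) → F ω = F ω') {k : ℤ} (hk : k ∉ S)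
    (G : ι → Ω → ℝ≥0∞) (hG : ∀ i, Measurable (G i)) :
    ∫⁻ ω, G (F ω) (ω k) ∂(Measure.infinitePi fun _ : ℤ => μ)
      = ∑' i, (Measure.infinitePi fun _ : ℤ => μ) {ω | F ω = i} * ∫⁻ x, G i x ∂μ := by
  have hind := indep_of_dep (μ := μ) hF S hdep hk
  have hke : Measurable fun ω : ℤ → Ω => ω k := measurable_pi_apply k
  have hprod := (indepFun_iff_map_prod_eq_prod_map_map hF.aemeasurable hke.aemeasurable).1 hind
  have hGm : Measurable fun z : ι × Ω => G z.1 z.2 := by
    apply measurable_from_prod_countable_right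
    intro i
    exact hG i
  have h1 : ∫⁻ ω, G (F ω) (ω k) ∂(Measure.infinitePi fun _ : ℤ => μ)
      = ∫⁻ z, G z.1 z.2 ∂((Measure.infinitePi fun _ : ℤ => μ).map fun ω => (F ω, ω k)) := by
    rw [lintegral_map hGm (hF.prodMk hke)]
  rw [h1, hprod, Measure.infinitePi_map_eval]
  have : SFinite ((Measure.infinitePi fun _ : ℤ => μ).map F) := by
    have : IsProbabilityMeasure ((Measure.infinitePi fun _ : ℤ => μ).map F) :=
      Measure.isProbabilityMeasure_map hF.aemeasurable
    infer_instance
  rw [lintegral_prod _ hGm.aemeasurable, lintegral_countable']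
  apply tsum_congr
  intro i
  rw [Measure.map_apply hF (measurableSet_singleton i), mul_comm]
  rfl

end Pool.Agent.Helper25PR
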