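import Pool.Agent.Helper25_PR.Indep

/-!
LAW: the law of the random cell (MP_ee92c9_pr).
-/

set_option autoImplicit false

open MeasureTheory ProbabilityTheory
open scoped ENNReal NNReal

namespace Pool.Agent.Helper25PR

open Pool.Agent.Helper91PC Pool.Agent.Helper91PR

section Idx

variable (hI : IdxStatement)
include hI

theorem meas_idx (a : ℕ) (v : ℝ) (k : ℤ) : Measurable fun x : ℝ => idx a v k x :=
  ((hI a).2.2.2.1 k).comp (measurable_const.prodMk measurable_id)

theorem child_inj {a : ℕ} {i j : ℤ} {c d : Fin (2 * a + 1)} (h : child a i c = child a j d) :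
    i = j ∧ c = d := by
  have h1 := (hI a).2.1 i c
  have h2 := (hI a).2.1 j d
  rw [h] at h1
  exact ⟨h1.1.symm.trans h2.1, h1.2.symm.trans h2.2⟩

theorem idx_succ_iff {a : ℕ} {v : ℝ} {k i : ℤ} {x : ℝ} :
    idx a v (k + 1) x = i ↔ ∃ c, idx a v k x = child a i c := by
  constructor
  · intro h
    refine ⟨dig a (idx a v k x), ?_⟩
    rw [← h, ← (hI a).1 v k x, (hI a).2.2.1]
  · rintro ⟨c, hc⟩
    rw [← (hI a).1 v k x, hc, ((hI a).2.1 i c).1]

theorem mass_sum (a : ℕ) (P : Measure ℝ) [IsProbabilityMeasure P] (v : ℝ) (k i : ℤ) :
    ∑ c, mass a P v k (child a i c) = mass a P v (k + 1) i := by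
  classical
  unfold mass
  have h1 : {x | idx a v (k + 1) x = i}
      = ⋃ c ∈ (Finset.univ : Finset (Fin (2 * a + 1))), {x | idx a v k x = child a i c} := by
    ext x
    simp only [Set.mem_ofPred_eq, Finset.mem_univ, Set.iUnion_true, Set.mem_iUnion]
    exact idx_succ_iff hI
  rw [h1, measureReal_biUnion_finset]
  · intro c _ d _ hcd
    apply Set.disjoint_left.2
    intro x hx hx'
    simp only [Set.mem_ofPred_eq] at hx hx'
    rw [hx] at hx'
    exact hcd (child_inj hI hx').2
  · intro c _
    exact meas_idx hI a v k (measurableSet_singleton _)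

omit hI in
theorem cv_nonneg (a : ℕ) (P : Measure ℝ) (v : ℝ) (k i : ℤ) (c : Fin (2 * a + 1)) :
    0 ≤ cv a P v k i c := div_nonneg measureReal_nonneg measureReal_nonneg

theorem cv_sum (a : ℕ) (P : Measure ℝ) [IsProbabilityMeasure P] (v : ℝ) (k i : ℤ)
    (h : 0 < mass a P v (k + 1) i) : ∑ c, cv a P v k i c = 1 := by
  unfold cv
  rw [← Finset.sum_div, mass_sum hI, div_self h.ne']

/-- cells of lower levels are contained in cells of higher levels -/
theorem idx_add_eq (a : ℕ) (v : ℝ) (k : ℤ) (t : ℕ) :
    ∃ g : ℤ → ℤ, ∀ x, idx a v (k + t) x = g (idx a v k x) := by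
  induction t with
  | zero => exact ⟨id, fun x => by simp⟩
  | succ t ih =>
    obtain ⟨g, hg⟩ := ih
    refine ⟨fun j => par a (g j), fun x => ?_⟩
    show _ = par a (g (idx a v k x))
    rw [← hg x, (hI a).1]
    congr 1
    push_cast
    ring

end Idx

section Step

variable {a : ℕ} {Ω : Type} [MeasurableSpace Ω] {μ : Measure Ω} [IsProbabilityMeasure μ]
  {φ : Fin (2 * a + 1) → Fin (2 * a + 1) → ℝ} {D : ℝ}

theorem notMem_Ico (n : ℤ) (t : ℕ) : n - t - 1 ∉ Finset.Ico (n - (t : ℤ)) n := by
  rw [Finset.mem_Ico]; omega

theorem desc_step (hI : IdxStatement) (R : Rule a Ω μ φ D) (P : Measure ℝ) (v : ℝ) (n : ℤ) (t : ℕ)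
    (i : ℤ) :
    (Measure.infinitePi fun _ : ℤ => μ) {ω | desc R P v ω n (t + 1) = i} =
      (Measure.infinitePi fun _ : ℤ => μ) {ω | desc R P v ω n t = par a i} *
        μ {x | R.s (cv a P v (n - t - 1) (par a i)) x = dig a i} := by
  classical
  have hs : ∀ j, Measurable fun x => R.s (cv a P v (n - t - 1) j) x := fun j =>
    R.meas.comp (measurable_const.prodMk measurable_id)
  have h := step_lintegral (μ := μ) (desc_meas R P v n t) (Finset.Ico (n - (t : ℤ)) n)
    (fun ω ω' h => desc_congr R P v n t h) (notMem_Ico n t)
    (fun j x => Set.indicator {x | child a j (R.s (cv a P v (n - t - 1) j) x) = i}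
      (fun _ => (1 : ℝ≥0∞)) x)
    (fun j => by
      apply measurable_const.indicator
      have : Measurable fun x => child a j (R.s (cv a P v (n - t - 1) j) x) :=
        (Measurable.of_discrete (f := fun c : Fin (2 * a + 1) => child a j c)).comp (hs j)
      exact this (measurableSet_singleton i))
  have h1 : ∫⁻ ω, Set.indicator {x | child a (desc R P v ω n t)
        (R.s (cv a P v (n - t - 1) (desc R P v ω n t)) x) = i} (fun _ => (1 : ℝ≥0∞))
        (ω (n - t - 1)) ∂(Measure.infinitePi fun _ : ℤ => μ)
      = (Measure.infinitePi fun _ : ℤ => μ) {ω | desc R P v ω n (t + 1) = i} := by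
    have hms : MeasurableSet {ω : ℤ → Ω | desc R P v ω n (t + 1) = i} :=
      desc_meas R P v n (t + 1) (measurableSet_singleton i)
    rw [← lintegral_indicator_one hms]
    apply lintegral_congr
    intro ω
    simp only [Set.indicator_apply, Set.mem_ofPred_eq, desc, Pi.one_apply]
  rw [← h1, h, tsum_eq_single (par a i)]
  · congr 1
    have hms : MeasurableSet {x | R.s (cv a P v (n - t - 1) (par a i)) x = dig a i} :=
      hs (par a i) (measurableSet_singleton _)
    rw [← lintegral_indicator_one hms]
    apply lintegral_congr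
    intro x
    have e : child a (par a i) (R.s (cv a P v (n - t - 1) (par a i)) x) = i ↔
        R.s (cv a P v (n - t - 1) (par a i)) x = dig a i := by
      constructor
      · intro h2
        have h3 := ((hI a).2.1 (par a i) (R.s (cv a P v (n - t - 1) (par a i)) x)).2
        rw [h2] at h3
        exact h3.symm
      · intro h2
        rw [h2, (hI a).2.2.1]
    simp only [Set.indicator_apply, Set.mem_ofPred_eq, Pi.one_apply, e]
  · intro j hj
    have : ∀ x, Set.indicator {x | child a j (R.s (cv a P v (n - t - 1) j) x) = i}
      (fun _ => (1 : ℝ≥0∞)) x = 0 := by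
      intro x
      apply Set.indicator_of_notMem
      intro h2
      apply hj
      rw [← h2]
      exact ((hI a).2.1 j _).1.symm
    simp only [this, lintegral_zero, mul_zero]

end Step

/-- LAW -/
theorem law (hI : IdxStatement) : DescLawStatement := by
  intro a Ω _ μ _ φ D R P _ v hv n t i hm
  classical
  induction t generalizing i with
  | zero =>
    simp only [desc, Nat.cast_zero, sub_zero]
    by_cases hi : i = 0
    · subst hi
      have h1 : {ω : ℤ → Ω | (0 : ℤ) = 0} = Set.univ := by
        ext ω; simp
      have h2 : {x | idx a v n x = 0 ∧ idx a v n x = 0} = {x | idx a v n x = 0} := by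
        ext x; simp
      rw [h1, h2, probReal_univ]
      exact (div_self hm.ne').symm
    · have h1 : {ω : ℤ → Ω | (0 : ℤ) = i} = ∅ := by
        ext ω; simp only [Set.mem_ofPred_eq, Set.mem_empty_iff_false, iff_false]
        exact fun h => hi h.symm
      have h2 : {x | idx a v n x = 0 ∧ idx a v n x = i} = ∅ := by
        ext x
        simp only [Set.mem_ofPred_eq, Set.mem_empty_iff_false, iff_false]
        rintro ⟨h3, h4⟩
        rw [h3] at h4
        exact hi h4.symm
      rw [h1, h2]
      simp
  | succ t ih =>
    have hstep := desc_step (μ := μ) hI R P v n t i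
    have hstep' : (Measure.infinitePi fun _ : ℤ => μ).real {ω | desc R P v ω n (t + 1) = i} =
        (Measure.infinitePi fun _ : ℤ => μ).real {ω | desc R P v ω n t = par a i} *
        μ.real {x | R.s (cv a P v (n - t - 1) (par a i)) x = dig a i} := by
      simp only [Measure.real]
      rw [hstep, ENNReal.toReal_mul]
    rw [hstep', ih (par a i)]
    have hlev : (n - ((t + 1 : ℕ) : ℤ)) = n - t - 1 := by push_cast; ring
    rw [hlev]
    have hlev2 : n - t - 1 + 1 = n - (t : ℤ) := by ring
    -- containment
    have hsub : {x | idx a v n x = 0 ∧ idx a v (n - t - 1) x = i}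
        ⊆ {x | idx a v n x = 0 ∧ idx a v (n - t) x = par a i} := by
      rintro x ⟨h1, h2⟩
      refine ⟨h1, ?_⟩
      rw [← hlev2, ← (hI a).1, h2]
    rcases (measureReal_nonneg (μ := P) (s := {x | idx a v (n - t) x = par a i})).eq_or_lt with h0 | h0
    · -- zero mass
      have h1 : P.real {x | idx a v n x = 0 ∧ idx a v (n - t) x = par a i} = 0 := by
        apply le_antisymm _ measureReal_nonneg
        rw [h0]
        exact measureReal_mono (fun x hx => hx.2)
      have h2 : P.real {x | idx a v n x = 0 ∧ idx a v (n - t - 1) x = i} = 0 := by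
        apply le_antisymm _ measureReal_nonneg
        rw [← h1]
        exact measureReal_mono hsub
      rw [h1, h2]; simp
    · have hmpos : 0 < mass a P v (n - t - 1 + 1) (par a i) := by
        rw [hlev2]; exact h0
      rw [R.law _ (fun c => cv_nonneg a P v _ _ c) (cv_sum hI a P v _ _ hmpos)]
      have hcv : cv a P v (n - t - 1) (par a i) (dig a i)
          = mass a P v (n - t - 1) i / mass a P v (n - t) (par a i) := by
        unfold cv
        rw [(hI a).2.2.1, hlev2]
      rw [hcv]
      obtain ⟨g, hg⟩ := idx_add_eq hI a v (n - t) t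
      have hg' : ∀ x, idx a v n x = g (idx a v (n - t) x) := by
        intro x
        rw [← hg x]; congr 1; ring
      by_cases hg0 : g (par a i) = 0
      · have e1 : {x | idx a v n x = 0 ∧ idx a v (n - t) x = par a i}
            = {x | idx a v (n - t) x = par a i} := by
          ext x
          simp only [Set.mem_ofPred_eq]
          constructor
          · exact fun h => h.2
          · intro h
            refine ⟨?_, h⟩
            rw [hg' x, h, hg0]
        have e2 : {x | idx a v n x = 0 ∧ idx a v (n - t - 1) x = i}
            = {x | idx a v (n - t - 1) x = i} := by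
          ext x
          simp only [Set.mem_ofPred_eq]
          constructor
          · exact fun h => h.2
          · intro h
            refine ⟨?_, h⟩
            have : idx a v (n - t) x = par a i := by rw [← hlev2, ← (hI a).1, h]
            rw [hg' x, this, hg0]
        rw [e1, e2]
        have h0' : 0 < mass a P v (n - t) (par a i) := h0
        show mass a P v (n - t) (par a i) / mass a P v n 0 * (mass a P v (n - t - 1) i
          / mass a P v (n - t) (par a i)) = mass a P v (n - t - 1) i / mass a P v n 0
        field_simp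
      · have e1 : {x | idx a v n x = 0 ∧ idx a v (n - t) x = par a i} = ∅ := by
          ext x
          simp only [Set.mem_ofPred_eq, Set.mem_empty_iff_false, iff_false]
          rintro ⟨h1, h2⟩
          rw [hg' x, h2] at h1
          exact hg0 h1
        have e2 : {x | idx a v n x = 0 ∧ idx a v (n - t - 1) x = i} = ∅ := by
          apply Set.eq_empty_of_subset_empty
          rw [← e1]
          exact hsub
        rw [e1, e2]
        simp

end Pool.Agent.Helper25PR
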