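import Pool.Agent.Helper25_PR.PairDet

/-!
PAIR: the expected cost of the descents for two measures (MP_ee92c9_pr).
-/

set_option autoImplicit false

open MeasureTheory ProbabilityTheory
open scoped ENNReal NNReal

namespace Pool.Agent.Helper25PR

open Pool.Agent.Helper91PC Pool.Agent.Helper91PR

/-! ### one level -/

section Level

variable {a : ℕ} {φ : Fin (2 * a + 1) → Fin (2 * a + 1) → ℝ} {D : ℝ}

/-- both points in children of `i` -/
def S2 (a : ℕ) (v : ℝ) (k i : ℤ) (c c' : Fin (2 * a + 1)) : Set (ℝ × ℝ) :=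
  {z | idx a v k z.1 = child a i c ∧ idx a v k z.2 = child a i c'}

/-- only the first point in the cell `i` -/
def E1 (a : ℕ) (v : ℝ) (k i : ℤ) (c : Fin (2 * a + 1)) : Set (ℝ × ℝ) :=
  {z | idx a v k z.1 = child a i c ∧ idx a v (k + 1) z.2 ≠ i}

/-- only the second point in the cell `i` -/
def E2 (a : ℕ) (v : ℝ) (k i : ℤ) (c' : Fin (2 * a + 1)) : Set (ℝ × ℝ) :=
  {z | idx a v (k + 1) z.1 ≠ i ∧ idx a v k z.2 = child a i c'}

/-- the cost of the pair in the cell `i` -/
noncomputable def Ti (a : ℕ) (φ : Fin (2 * a + 1) → Fin (2 * a + 1) → ℝ) (D v : ℝ) (k i : ℤ)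
    (z : ℝ × ℝ) : ℝ≥0∞ :=
  ∑ c, ∑ c', (S2 a v k i c c').indicator (fun _ => ENNReal.ofReal (φ c c')) z
    + (∑ c, (E1 a v k i c).indicator (fun _ => ENNReal.ofReal D) z
      + ∑ c', (E2 a v k i c').indicator (fun _ => ENNReal.ofReal D) z)

variable (hI : IdxStatement)
include hI

theorem Ti_eq (v : ℝ) (k i : ℤ) (z : ℝ × ℝ) :
    Ti a φ D v k i z =
      (if idx a v (k + 1) z.1 = i ∧ idx a v (k + 1) z.2 = i then
        ENNReal.ofReal (φ (dig a (idx a v k z.1)) (dig a (idx a v k z.2))) else 0)
      + ((if idx a v (k + 1) z.1 = i ∧ idx a v (k + 1) z.2 ≠ i then ENNReal.ofReal D else 0)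
        + (if idx a v (k + 1) z.1 ≠ i ∧ idx a v (k + 1) z.2 = i then ENNReal.ofReal D else 0)) := by
  classical
  have hkey : ∀ (x : ℝ) (c : Fin (2 * a + 1)), idx a v k x = child a i c ↔
      idx a v (k + 1) x = i ∧ c = dig a (idx a v k x) := by
    intro x c
    constructor
    · intro h
      refine ⟨?_, ?_⟩
      · rw [← (hI a).1, h, ((hI a).2.1 i c).1]
      · rw [h, ((hI a).2.1 i c).2]
    · rintro ⟨h1, h2⟩
      rw [h2, ← h1, ← (hI a).1, (hI a).2.2.1]
  unfold Ti
  congr 1
  · have h1 : ∀ c c', (S2 a v k i c c').indicator (fun _ => ENNReal.ofReal (φ c c')) z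
        = if c = dig a (idx a v k z.1) then (if c' = dig a (idx a v k z.2) then
          (if idx a v (k + 1) z.1 = i ∧ idx a v (k + 1) z.2 = i then
            ENNReal.ofReal (φ c c') else 0) else 0) else 0 := by
      intro c c'
      simp only [Set.indicator_apply, S2, Set.mem_ofPred_eq, hkey]
      by_cases h1 : c = dig a (idx a v k z.1) <;> by_cases h2 : c' = dig a (idx a v k z.2) <;>
        by_cases h3 : idx a v (k + 1) z.1 = i <;> by_cases h4 : idx a v (k + 1) z.2 = i <;>
        simp [h1, h2, h3, h4]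
    simp only [h1]
    simp
  · congr 1
    · have h1 : ∀ c, (E1 a v k i c).indicator (fun _ => ENNReal.ofReal D) z
        = if c = dig a (idx a v k z.1) then
          (if idx a v (k + 1) z.1 = i ∧ idx a v (k + 1) z.2 ≠ i then
            ENNReal.ofReal D else 0) else 0 := by
        intro c
        simp only [Set.indicator_apply, E1, Set.mem_ofPred_eq, hkey]
        by_cases h1 : c = dig a (idx a v k z.1) <;> by_cases h3 : idx a v (k + 1) z.1 = i <;>
          by_cases h4 : idx a v (k + 1) z.2 = i <;> simp [h1, h3, h4]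
      simp only [h1]
      simp
    · have h1 : ∀ c, (E2 a v k i c).indicator (fun _ => ENNReal.ofReal D) z
        = if c = dig a (idx a v k z.2) then
          (if idx a v (k + 1) z.1 ≠ i ∧ idx a v (k + 1) z.2 = i then
            ENNReal.ofReal D else 0) else 0 := by
        intro c
        simp only [Set.indicator_apply, E2, Set.mem_ofPred_eq, hkey]
        by_cases h1 : c = dig a (idx a v k z.2) <;> by_cases h3 : idx a v (k + 1) z.1 = i <;>
          by_cases h4 : idx a v (k + 1) z.2 = i <;> simp [h1, h3, h4]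
      simp only [h1]
      simp

theorem tsum_Ti (hD : 0 ≤ D) (v : ℝ) (k : ℤ) (z : ℝ × ℝ) :
    ∑' i, Ti a φ D v k i z = ENNReal.ofReal (tw a φ D v k z.1 z.2) := by
  classical
  simp only [Ti_eq hI]
  rw [ENNReal.tsum_add, ENNReal.tsum_add]
  unfold tw
  by_cases h : idx a v (k + 1) z.1 = idx a v (k + 1) z.2
  · rw [if_pos h]
    have h1 : ∀ i, (if idx a v (k + 1) z.1 = i ∧ idx a v (k + 1) z.2 ≠ i then ENNReal.ofReal D else 0)
        = 0 := by
      intro i
      rw [if_neg]
      rintro ⟨h2, h3⟩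
      exact h3 (h ▸ h2)
    have h2 : ∀ i, (if idx a v (k + 1) z.1 ≠ i ∧ idx a v (k + 1) z.2 = i then ENNReal.ofReal D else 0)
        = 0 := by
      intro i
      rw [if_neg]
      rintro ⟨h2, h3⟩
      exact h2 (h.trans h3)
    simp only [h1, h2, tsum_zero, add_zero]
    rw [tsum_eq_single (idx a v (k + 1) z.1)]
    · rw [if_pos ⟨rfl, h.symm⟩]
    · intro i hi
      rw [if_neg]
      rintro ⟨h3, -⟩
      exact hi h3.symm
  · rw [if_neg h]
    have h0 : ∀ i, (if idx a v (k + 1) z.1 = i ∧ idx a v (k + 1) z.2 = i then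
        ENNReal.ofReal (φ (dig a (idx a v k z.1)) (dig a (idx a v k z.2))) else 0) = 0 := by
      intro i
      rw [if_neg]
      rintro ⟨h2, h3⟩
      exact h (h2.trans h3.symm)
    simp only [h0, tsum_zero, zero_add]
    rw [tsum_eq_single (idx a v (k + 1) z.1), tsum_eq_single (idx a v (k + 1) z.2)]
    · rw [if_pos ⟨rfl, fun h1 => h h1.symm⟩, if_pos ⟨h, rfl⟩, ← ENNReal.ofReal_add hD hD]
      congr 1
      ring
    · intro i hi
      rw [if_neg]
      rintro ⟨-, h3⟩
      exact hi h3.symm
    · intro i hi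
      rw [if_neg]
      rintro ⟨h3, -⟩
      exact hi h3.symm

theorem meas_S2 (v : ℝ) (k i : ℤ) (c c' : Fin (2 * a + 1)) : MeasurableSet (S2 a v k i c c') :=
  (((meas_idx hI a v k).comp measurable_fst) (measurableSet_singleton _)).inter
    (((meas_idx hI a v k).comp measurable_snd) (measurableSet_singleton _))

theorem meas_E1 (v : ℝ) (k i : ℤ) (c : Fin (2 * a + 1)) : MeasurableSet (E1 a v k i c) :=
  (((meas_idx hI a v k).comp measurable_fst) (measurableSet_singleton _)).inter
    ((((meas_idx hI a v (k + 1)).comp measurable_snd) (measurableSet_singleton i)).compl)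

theorem meas_E2 (v : ℝ) (k i : ℤ) (c : Fin (2 * a + 1)) : MeasurableSet (E2 a v k i c) :=
  ((((meas_idx hI a v (k + 1)).comp measurable_fst) (measurableSet_singleton i)).compl).inter
    (((meas_idx hI a v k).comp measurable_snd) (measurableSet_singleton _))

theorem lintegral_Ti (hφ : ∀ c c', 0 ≤ φ c c') (hD : 0 ≤ D) (v : ℝ) (k i : ℤ)
    (π : Measure (ℝ × ℝ)) [IsFiniteMeasure π] :
    ∫⁻ z, Ti a φ D v k i z ∂π = ENNReal.ofReal
      (∑ c, ∑ c', φ c c' * π.real (S2 a v k i c c')
        + D * (∑ c, π.real (E1 a v k i c) + ∑ c, π.real (E2 a v k i c))) := by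
  have hterm : ∀ (S : Set (ℝ × ℝ)) (b : ℝ), MeasurableSet S → 0 ≤ b →
      ∫⁻ z, S.indicator (fun _ => ENNReal.ofReal b) z ∂π = ENNReal.ofReal (b * π.real S) := by
    intro S b hS hb
    rw [lintegral_indicator_const hS, ENNReal.ofReal_mul hb, Measure.real, ENNReal.ofReal_toReal]
    exact measure_ne_top _ _
  unfold Ti
  rw [lintegral_add_left, lintegral_add_left, lintegral_finset_sum, lintegral_finset_sum,
    lintegral_finset_sum]
  · have e1 : ∀ c, ∫⁻ z, ∑ c', (S2 a v k i c c').indicator (fun _ => ENNReal.ofReal (φ c c')) z ∂π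
        = ∑ c', ENNReal.ofReal (φ c c' * π.real (S2 a v k i c c')) := by
      intro c
      rw [lintegral_finset_sum]
      · exact Finset.sum_congr rfl fun c' _ => hterm _ _ (meas_S2 hI v k i c c') (hφ c c')
      · intro c' _
        exact measurable_const.indicator (meas_S2 hI v k i c c')
    simp only [e1]
    rw [Finset.sum_congr rfl fun c _ => hterm _ _ (meas_E1 hI v k i c) hD,
      Finset.sum_congr rfl fun c _ => hterm _ _ (meas_E2 hI v k i c) hD]
    rw [← ENNReal.ofReal_sum_of_nonneg, ← ENNReal.ofReal_sum_of_nonneg, ← ENNReal.ofReal_add,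
      Finset.sum_congr rfl fun c _ => (ENNReal.ofReal_sum_of_nonneg ?_).symm,
      ← ENNReal.ofReal_sum_of_nonneg, ← ENNReal.ofReal_add]
    · congr 1
      rw [← Finset.mul_sum, ← Finset.mul_sum]
      ring
    all_goals first
      | exact Finset.sum_nonneg fun c _ => Finset.sum_nonneg fun c' _ =>
          mul_nonneg (hφ c c') measureReal_nonneg
      | exact Finset.sum_nonneg fun c' _ => mul_nonneg (hφ _ c') measureReal_nonneg
      | (intro c _; exact Finset.sum_nonneg fun c' _ => mul_nonneg (hφ c c') measureReal_nonneg)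
      | (intro c' _; exact mul_nonneg (hφ _ c') measureReal_nonneg)
      | (exact add_nonneg (Finset.sum_nonneg fun c _ => mul_nonneg hD measureReal_nonneg)
          (Finset.sum_nonneg fun c _ => mul_nonneg hD measureReal_nonneg))
      | exact Finset.sum_nonneg fun c _ => mul_nonneg hD measureReal_nonneg
      | (intro c _; exact mul_nonneg hD measureReal_nonneg)
  · intro c _; exact measurable_const.indicator (meas_E2 hI v k i c)
  · intro c _; exact measurable_const.indicator (meas_E1 hI v k i c)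
  · intro c _
    exact Finset.measurable_sum _ fun c' _ => measurable_const.indicator (meas_S2 hI v k i c c')
  · exact Finset.measurable_sum _ fun c _ => measurable_const.indicator (meas_E1 hI v k i c)
  · exact Finset.measurable_sum _ fun c _ =>
      Finset.measurable_sum _ fun c' _ => measurable_const.indicator (meas_S2 hI v k i c c')

/-- row sums -/
theorem row_sum (v : ℝ) (k i : ℤ) (π : Measure (ℝ × ℝ)) [IsFiniteMeasure π]
    (c : Fin (2 * a + 1)) :
    ∑ c', π.real (S2 a v k i c c') + π.real (E1 a v k i c)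
      = (π.map Prod.fst).real {x | idx a v k x = child a i c} := by
  classical
  have hm : MeasurableSet {x | idx a v k x = child a i c} :=
    meas_idx hI a v k (measurableSet_singleton _)
  have hmr : (π.map Prod.fst).real {x | idx a v k x = child a i c}
      = π.real (Prod.fst ⁻¹' {x | idx a v k x = child a i c}) := by
    rw [measureReal_def, Measure.map_apply measurable_fst hm, measureReal_def]
  rw [hmr]
  have h1 : (Prod.fst ⁻¹' {x | idx a v k x = child a i c} : Set (ℝ × ℝ))
      = (⋃ c' ∈ (Finset.univ : Finset (Fin (2 * a + 1))), S2 a v k i c c') ∪ E1 a v k i c := by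
    ext z
    simp only [Set.mem_preimage, Set.mem_ofPred_eq, Set.mem_union, Finset.mem_univ,
      Set.iUnion_true, Set.mem_iUnion, S2, E1]
    constructor
    · intro h
      by_cases h2 : idx a v (k + 1) z.2 = i
      · obtain ⟨c', hc'⟩ := (idx_succ_iff hI).1 h2
        exact Or.inl ⟨c', h, hc'⟩
      · exact Or.inr ⟨h, h2⟩
    · rintro (⟨c', h, -⟩ | ⟨h, -⟩)
      · exact h
      · exact h
  rw [h1, measureReal_union _ (meas_E1 hI v k i c) (measure_ne_top _ _) (measure_ne_top _ _),
    measureReal_biUnion_finset]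
  · intro c1 _ c2 _ h12
    apply Set.disjoint_left.2
    rintro z ⟨-, h3⟩ ⟨-, h4⟩
    rw [h3] at h4
    exact h12 (child_inj hI h4).2
  · intro c' _
    exact meas_S2 hI v k i c c'
  · apply Set.disjoint_left.2
    rintro z h3 ⟨-, h4⟩
    simp only [Finset.mem_univ, Set.iUnion_true, Set.mem_iUnion] at h3
    obtain ⟨c', -, h5⟩ := h3
    exact h4 ((idx_succ_iff hI).2 ⟨c', h5⟩)

theorem col_sum (v : ℝ) (k i : ℤ) (π : Measure (ℝ × ℝ)) [IsFiniteMeasure π]
    (c' : Fin (2 * a + 1)) :
    ∑ c, π.real (S2 a v k i c c') + π.real (E2 a v k i c')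
      = (π.map Prod.snd).real {x | idx a v k x = child a i c'} := by
  classical
  have hm : MeasurableSet {x | idx a v k x = child a i c'} :=
    meas_idx hI a v k (measurableSet_singleton _)
  have hmr : (π.map Prod.snd).real {x | idx a v k x = child a i c'}
      = π.real (Prod.snd ⁻¹' {x | idx a v k x = child a i c'}) := by
    rw [measureReal_def, Measure.map_apply measurable_snd hm, measureReal_def]
  rw [hmr]
  have h1 : (Prod.snd ⁻¹' {x | idx a v k x = child a i c'} : Set (ℝ × ℝ))
      = (⋃ c ∈ (Finset.univ : Finset (Fin (2 * a + 1))), S2 a v k i c c') ∪ E2 a v k i c' := by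
    ext z
    simp only [Set.mem_preimage, Set.mem_ofPred_eq, Set.mem_union, Finset.mem_univ,
      Set.iUnion_true, Set.mem_iUnion, S2, E2]
    constructor
    · intro h
      by_cases h2 : idx a v (k + 1) z.1 = i
      · obtain ⟨c, hc⟩ := (idx_succ_iff hI).1 h2
        exact Or.inl ⟨c, hc, h⟩
      · exact Or.inr ⟨h2, h⟩
    · rintro (⟨c, -, h⟩ | ⟨-, h⟩)
      · exact h
      · exact h
  rw [h1, measureReal_union _ (meas_E2 hI v k i c') (measure_ne_top _ _) (measure_ne_top _ _),
    measureReal_biUnion_finset]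
  · intro c1 _ c2 _ h12
    apply Set.disjoint_left.2
    rintro z ⟨h3, -⟩ ⟨h4, -⟩
    rw [h3] at h4
    exact h12 (child_inj hI h4).2
  · intro c _
    exact meas_S2 hI v k i c c'
  · apply Set.disjoint_left.2
    rintro z h3 ⟨h4, -⟩
    simp only [Finset.mem_univ, Set.iUnion_true, Set.mem_iUnion] at h3
    obtain ⟨c, h5, -⟩ := h3
    exact h4 ((idx_succ_iff hI).2 ⟨c, h5⟩)

end Level

section Main

variable {a : ℕ} {Ω : Type} [MeasurableSpace Ω] {μ : Measure Ω} [IsProbabilityMeasure μ]
  {φ : Fin (2 * a + 1) → Fin (2 * a + 1) → ℝ} {D : ℝ}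

/-- the rule at one cell -/
theorem cell_bound (hI : IdxStatement) (R : Rule a Ω μ φ D) (hφ : ∀ c c', 0 ≤ φ c c') (hD : 0 ≤ D)
    (P Q : Measure ℝ) [IsProbabilityMeasure P] [IsProbabilityMeasure Q]
    (π : Measure (ℝ × ℝ)) (hπ1 : π.map Prod.fst = P) (hπ2 : π.map Prod.snd = Q)
    (v : ℝ) (k i : ℤ) (hP : 0 < mass a P v (k + 1) i) (hQ : 0 < mass a Q v (k + 1) i) :
    ENNReal.ofReal (min (mass a P v (k + 1) i) (mass a Q v (k + 1) i)) *
      ∫⁻ x, ENNReal.ofReal (φ (R.s (cv a P v k i) x) (R.s (cv a Q v k i) x)) ∂μ ≤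
      2 * ∫⁻ z, Ti a φ D v k i z ∂π := by
  classical
  have hπf : IsFiniteMeasure π := by
    constructor
    have h1 : π Set.univ = (π.map Prod.fst) Set.univ := by
      rw [Measure.map_apply measurable_fst MeasurableSet.univ, Set.preimage_univ]
    rw [h1, hπ1, measure_univ]
    exact ENNReal.one_lt_top
  set m : Fin (2 * a + 1) → Fin (2 * a + 1) → ℝ := fun c c' => π.real (S2 a v k i c c') with hm
  set e1 : Fin (2 * a + 1) → ℝ := fun c => π.real (E1 a v k i c) with he1
  set e2 : Fin (2 * a + 1) → ℝ := fun c => π.real (E2 a v k i c) with he2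
  have hrow : ∀ c, ∑ c', m c c' + e1 c = mass a P v k (child a i c) := by
    intro c
    have := row_sum hI v k i π c
    rw [hπ1] at this
    exact this
  have hcol : ∀ c', ∑ c, m c c' + e2 c' = mass a Q v k (child a i c') := by
    intro c'
    have := col_sum hI v k i π c'
    rw [hπ2] at this
    exact this
  have htot1 : ∑ c, ∑ c', m c c' + ∑ c, e1 c = mass a P v (k + 1) i := by
    rw [← Finset.sum_add_distrib, Finset.sum_congr rfl fun c _ => hrow c, mass_sum hI]
  have htot2 : ∑ c, ∑ c', m c c' + ∑ c, e2 c = mass a Q v (k + 1) i := by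
    rw [Finset.sum_comm, ← Finset.sum_add_distrib, Finset.sum_congr rfl fun c _ => hcol c,
      mass_sum hI]
  have hcvP : (fun c => (∑ c', m c c' + e1 c) / (∑ c, ∑ c', m c c' + ∑ c, e1 c)) = cv a P v k i := by
    funext c
    rw [hrow, htot1]; rfl
  have hcvQ : (fun c' => (∑ c, m c c' + e2 c') / (∑ c, ∑ c', m c c' + ∑ c, e2 c))
      = cv a Q v k i := by
    funext c
    rw [hcol, htot2]; rfl
  have hpair := R.pair m e1 e2 (fun _ _ => measureReal_nonneg) (fun _ => measureReal_nonneg)
    (fun _ => measureReal_nonneg) (by rw [htot1]; exact hP) (by rw [htot2]; exact hQ)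
  rw [hcvP, hcvQ, htot1, htot2] at hpair
  have hs : ∀ p : Fin (2 * a + 1) → ℝ, Measurable fun x => R.s p x := fun p =>
    R.meas.comp (measurable_const.prodMk measurable_id)
  have hφm : Measurable fun x => φ (R.s (cv a P v k i) x) (R.s (cv a Q v k i) x) :=
    (Measurable.of_discrete (f := fun z : Fin (2 * a + 1) × Fin (2 * a + 1) => φ z.1 z.2)).comp
      ((hs _).prodMk (hs _))
  have hint : Integrable (fun x => φ (R.s (cv a P v k i) x) (R.s (cv a Q v k i) x)) μ := by
    refine Integrable.of_bound hφm.aestronglyMeasurable (∑ c, ∑ c', φ c c')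
      (Filter.Eventually.of_forall fun x => ?_)
    rw [Real.norm_eq_abs, abs_of_nonneg (hφ _ _)]
    calc φ (R.s (cv a P v k i) x) (R.s (cv a Q v k i) x)
        ≤ ∑ c', φ (R.s (cv a P v k i) x) c' :=
          Finset.single_le_sum (f := fun c' => φ (R.s (cv a P v k i) x) c')
            (fun c' _ => hφ _ c') (Finset.mem_univ _)
      _ ≤ ∑ c, ∑ c', φ c c' :=
          Finset.single_le_sum (f := fun c => ∑ c', φ c c')
            (fun c _ => Finset.sum_nonneg fun c' _ => hφ c c') (Finset.mem_univ _)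
  rw [← ofReal_integral_eq_lintegral_ofReal hint (Filter.Eventually.of_forall fun x => hφ _ _),
    ← ENNReal.ofReal_mul (le_min hP.le hQ.le), lintegral_Ti hI hφ hD]
  have h2 : (2 : ℝ≥0∞) = ENNReal.ofReal 2 := by simp
  rw [h2, ← ENNReal.ofReal_mul (by norm_num)]
  exact ENNReal.ofReal_le_ofReal hpair

/-- the expected cost at one level -/
theorem level_bound (hI : IdxStatement) (R : Rule a Ω μ φ D) (hφ : ∀ c c', 0 ≤ φ c c') (hD : 0 ≤ D)
    (P Q : Measure ℝ) [IsProbabilityMeasure P] [IsProbabilityMeasure Q]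
    (π : Measure (ℝ × ℝ)) (hπ1 : π.map Prod.fst = P) (hπ2 : π.map Prod.snd = Q)
    (v : ℝ) (hv : 0 < v) (n : ℤ) (hP : 0 < mass a P v n 0) (hQ : 0 < mass a Q v n 0) (s : ℕ) :
    ∫⁻ ω, (if desc R P v ω n s = desc R Q v ω n s then
        ENNReal.ofReal (φ (R.s (cv a P v (n - s - 1) (desc R P v ω n s)) (ω (n - s - 1)))
          (R.s (cv a Q v (n - s - 1) (desc R Q v ω n s)) (ω (n - s - 1)))) else 0)
        ∂(Measure.infinitePi fun _ : ℤ => μ) ≤
      ENNReal.ofReal (2 / min (mass a P v n 0) (mass a Q v n 0)) *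
        ∫⁻ z, ENNReal.ofReal (tw a φ D v (n - s - 1) z.1 z.2) ∂π := by
  classical
  have hπf : IsFiniteMeasure π := by
    constructor
    have h1 : π Set.univ = (π.map Prod.fst) Set.univ := by
      rw [Measure.map_apply measurable_fst MeasurableSet.univ, Set.preimage_univ]
    rw [h1, hπ1, measure_univ]
    exact ENNReal.one_lt_top
  set k : ℤ := n - s - 1 with hk
  have hk1 : k + 1 = n - s := by rw [hk]; ring
  have hs : ∀ p : Fin (2 * a + 1) → ℝ, Measurable fun x => R.s p x := fun p =>
    R.meas.comp (measurable_const.prodMk measurable_id)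
  have hφm : ∀ i j, Measurable fun x => ENNReal.ofReal
      (φ (R.s (cv a P v k i) x) (R.s (cv a Q v k j) x)) := fun i j =>
    ENNReal.measurable_ofReal.comp
      ((Measurable.of_discrete (f := fun z : Fin (2 * a + 1) × Fin (2 * a + 1) => φ z.1 z.2)).comp
        ((hs _).prodMk (hs _)))
  have hstep := step_lintegral (μ := μ)
    (F := fun ω : ℤ → Ω => (desc R P v ω n s, desc R Q v ω n s))
    ((desc_meas R P v n s).prodMk (desc_meas R Q v n s)) (Finset.Ico (n - (s : ℤ)) n)
    (fun ω ω' h => by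
      show (desc R P v ω n s, desc R Q v ω n s) = (desc R P v ω' n s, desc R Q v ω' n s)
      rw [desc_congr R P v n s h, desc_congr R Q v n s h]) (notMem_Ico n s)
    (fun p x => if p.1 = p.2 then
        ENNReal.ofReal (φ (R.s (cv a P v k p.1) x) (R.s (cv a Q v k p.2) x)) else 0)
    (fun p => by
      by_cases h : p.1 = p.2
      · simp only [h, if_true]
        exact hφm _ _
      · simp only [h, if_false]
        exact measurable_const)
  rw [← hk] at hstep
  rw [hstep, ENNReal.tsum_prod']
  -- reduce to the diagonal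
  have hdiag : ∀ i : ℤ, ∑' j : ℤ, (Measure.infinitePi fun _ : ℤ => μ)
        {ω | (desc R P v ω n s, desc R Q v ω n s) = (i, j)} *
        ∫⁻ x, (if (i, j).1 = (i, j).2 then
          ENNReal.ofReal (φ (R.s (cv a P v k (i, j).1) x) (R.s (cv a Q v k (i, j).2) x)) else 0) ∂μ
      = (Measure.infinitePi fun _ : ℤ => μ)
        {ω | desc R P v ω n s = i ∧ desc R Q v ω n s = i} *
        ∫⁻ x, ENNReal.ofReal (φ (R.s (cv a P v k i) x) (R.s (cv a Q v k i) x)) ∂μ := by
    intro i
    rw [tsum_eq_single i]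
    · simp only [if_true, Prod.mk.injEq]
    · intro j hj
      have : ¬ i = j := fun h => hj h.symm
      simp [this]
  rw [tsum_congr hdiag]
  set mm := min (mass a P v n 0) (mass a Q v n 0) with hmm
  have hmm0 : 0 < mm := lt_min hP hQ
  have hlaw := law hI
  -- each cell
  have hcell : ∀ i : ℤ, (Measure.infinitePi fun _ : ℤ => μ)
        {ω | desc R P v ω n s = i ∧ desc R Q v ω n s = i} *
        ∫⁻ x, ENNReal.ofReal (φ (R.s (cv a P v k i) x) (R.s (cv a Q v k i) x)) ∂μ
      ≤ ENNReal.ofReal (2 / mm) * ∫⁻ z, Ti a φ D v k i z ∂π := by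
    intro i
    have hp1 : (Measure.infinitePi fun _ : ℤ => μ).real {ω | desc R P v ω n s = i}
        ≤ mass a P v (k + 1) i / mm := by
      rw [hlaw a Ω μ φ D R P v hv n s i hP, hk1]
      have h1 : P.real {x | idx a v n x = 0 ∧ idx a v (n - s) x = i} ≤ mass a P v (n - s) i :=
        measureReal_mono (fun x hx => hx.2)
      exact div_le_div₀ measureReal_nonneg h1 hmm0 (min_le_left _ _)
    have hp2 : (Measure.infinitePi fun _ : ℤ => μ).real {ω | desc R Q v ω n s = i}
        ≤ mass a Q v (k + 1) i / mm := by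
      rw [hlaw a Ω μ φ D R Q v hv n s i hQ, hk1]
      have h1 : Q.real {x | idx a v n x = 0 ∧ idx a v (n - s) x = i} ≤ mass a Q v (n - s) i :=
        measureReal_mono (fun x hx => hx.2)
      exact div_le_div₀ measureReal_nonneg h1 hmm0 (min_le_right _ _)
    set p := (Measure.infinitePi fun _ : ℤ => μ).real
      {ω | desc R P v ω n s = i ∧ desc R Q v ω n s = i} with hp
    have hpP : p ≤ mass a P v (k + 1) i / mm :=
      (measureReal_mono (fun ω hω => hω.1)).trans hp1
    have hpQ : p ≤ mass a Q v (k + 1) i / mm :=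
      (measureReal_mono (fun ω hω => hω.2)).trans hp2
    have hpe : (Measure.infinitePi fun _ : ℤ => μ)
        {ω | desc R P v ω n s = i ∧ desc R Q v ω n s = i} = ENNReal.ofReal p := by
      rw [hp, measureReal_def, ENNReal.ofReal_toReal (measure_ne_top _ _)]
    have hp0 : 0 ≤ p := measureReal_nonneg
    rw [hpe]
    rcases (measureReal_nonneg (μ := P) (s := {x | idx a v (k + 1) x = i})).eq_or_lt with h0 | h0
    · have : mass a P v (k + 1) i = 0 := h0.symm
      rw [this, zero_div] at hpP
      rw [le_antisymm hpP hp0, ENNReal.ofReal_zero, zero_mul]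
      exact zero_le
    rcases (measureReal_nonneg (μ := Q) (s := {x | idx a v (k + 1) x = i})).eq_or_lt with h0' | h0'
    · have : mass a Q v (k + 1) i = 0 := h0'.symm
      rw [this, zero_div] at hpQ
      rw [le_antisymm hpQ hp0, ENNReal.ofReal_zero, zero_mul]
      exact zero_le
    have hcb := cell_bound hI R hφ hD P Q π hπ1 hπ2 v k i h0 h0'
    have hpm : p ≤ mm⁻¹ * min (mass a P v (k + 1) i) (mass a Q v (k + 1) i) := by
      rw [inv_mul_eq_div]
      rcases min_cases (mass a P v (k + 1) i) (mass a Q v (k + 1) i) with h | h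
      · rw [h.1]; exact hpP
      · rw [h.1]; exact hpQ
    calc ENNReal.ofReal p *
        ∫⁻ x, ENNReal.ofReal (φ (R.s (cv a P v k i) x) (R.s (cv a Q v k i) x)) ∂μ
        ≤ ENNReal.ofReal (mm⁻¹ * min (mass a P v (k + 1) i) (mass a Q v (k + 1) i)) *
          ∫⁻ x, ENNReal.ofReal (φ (R.s (cv a P v k i) x) (R.s (cv a Q v k i) x)) ∂μ := by
          gcongr
      _ = ENNReal.ofReal mm⁻¹ * (ENNReal.ofReal
          (min (mass a P v (k + 1) i) (mass a Q v (k + 1) i)) *
          ∫⁻ x, ENNReal.ofReal (φ (R.s (cv a P v k i) x) (R.s (cv a Q v k i) x)) ∂μ) := by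
          rw [ENNReal.ofReal_mul (by positivity), mul_assoc]
      _ ≤ ENNReal.ofReal mm⁻¹ * (2 * ∫⁻ z, Ti a φ D v k i z ∂π) := by gcongr
      _ = _ := by
          have h2 : (2 : ℝ≥0∞) = ENNReal.ofReal 2 := by simp
          rw [← mul_assoc, h2, ← ENNReal.ofReal_mul (by positivity), inv_mul_eq_div]
  calc _ ≤ ∑' i : ℤ, ENNReal.ofReal (2 / mm) * ∫⁻ z, Ti a φ D v k i z ∂π :=
        ENNReal.tsum_le_tsum hcell
    _ = ENNReal.ofReal (2 / mm) * ∫⁻ z, ∑' i : ℤ, Ti a φ D v k i z ∂π := by
        rw [ENNReal.tsum_mul_left, lintegral_tsum]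
        intro i
        apply Measurable.aemeasurable
        unfold Ti
        exact (Finset.measurable_sum _ fun c _ => Finset.measurable_sum _ fun c' _ =>
          measurable_const.indicator (meas_S2 hI v k i c c')).add
          ((Finset.measurable_sum _ fun c _ => measurable_const.indicator (meas_E1 hI v k i c)).add
            (Finset.measurable_sum _ fun c _ => measurable_const.indicator (meas_E2 hI v k i c)))
    _ = _ := by
        congr 1
        apply lintegral_congr
        intro z
        exact tsum_Ti hI hD v k z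

end Main

/-- PAIR -/
theorem pair (hI : IdxStatement) : PairStatement := by
  intro a q φ D hp Ω _ μ _ R P Q _ _ π hπ1 hπ2 v hv n t hP hQ
  classical
  set mm := min (mass a P v n 0) (mass a Q v n 0) with hmm
  have hmm0 : 0 < mm := lt_min hP hQ
  have hdet : ∀ ω : ℤ → Ω, ENNReal.ofReal ((|(desc R P v ω n t : ℝ) - desc R Q v ω n t| *
        ((2 * a + 1 : ℕ) : ℝ) ^ (n - t)) ^ q) ≤
      ∑ s ∈ Finset.range t, ENNReal.ofReal ((((2 * a + 1 : ℕ) : ℝ) ^ (n - s - 1)) ^ q) *
        (ENNReal.ofReal 5 * (if desc R P v ω n s = desc R Q v ω n s then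
        ENNReal.ofReal (φ (R.s (cv a P v (n - s - 1) (desc R P v ω n s)) (ω (n - s - 1)))
          (R.s (cv a Q v (n - s - 1) (desc R Q v ω n s)) (ω (n - s - 1)))) else 0)) := by
    intro ω
    have h := det_bound hp (fun s => desc R P v ω n s) (fun s => desc R Q v ω n s)
      (fun s => R.s (cv a P v (n - s - 1) (desc R P v ω n s)) (ω (n - s - 1)))
      (fun s => R.s (cv a Q v (n - s - 1) (desc R Q v ω n s)) (ω (n - s - 1)))
      rfl (fun s => rfl) (fun s => rfl) n t
    refine h.trans (le_of_eq ?_)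
    apply Finset.sum_congr rfl
    intro s _
    congr 1
    by_cases h1 : desc R P v ω n s = desc R Q v ω n s
    · rw [if_pos h1, if_pos h1, ENNReal.ofReal_mul (by norm_num)]
    · rw [if_neg h1, if_neg h1, mul_zero]
  have hs : ∀ p : Fin (2 * a + 1) → ℝ, Measurable fun x => R.s p x := fun p =>
    R.meas.comp (measurable_const.prodMk measurable_id)
  have hmeas : ∀ s : ℕ, Measurable fun ω : ℤ → Ω => (if desc R P v ω n s = desc R Q v ω n s then
        ENNReal.ofReal (φ (R.s (cv a P v (n - s - 1) (desc R P v ω n s)) (ω (n - s - 1)))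
          (R.s (cv a Q v (n - s - 1) (desc R Q v ω n s)) (ω (n - s - 1)))) else 0) := by
    intro s
    have h1 : ∀ P' : Measure ℝ, Measurable fun ω : ℤ → Ω =>
        R.s (cv a P' v (n - s - 1) (desc R P' v ω n s)) (ω (n - s - 1)) := by
      intro P'
      exact R.meas.comp (((Measurable.of_discrete
        (f := fun j : ℤ => cv a P' v (n - s - 1) j)).comp (desc_meas R P' v n s)).prodMk
        (measurable_pi_apply _))
    have h2 : MeasurableSet {ω : ℤ → Ω | desc R P v ω n s = desc R Q v ω n s} :=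
      measurableSet_eq_fun (desc_meas R P v n s) (desc_meas R Q v n s)
    exact Measurable.ite h2 (ENNReal.measurable_ofReal.comp
      ((Measurable.of_discrete (f := fun z : Fin (2 * a + 1) × Fin (2 * a + 1) => φ z.1 z.2)).comp
        ((h1 P).prodMk (h1 Q)))) measurable_const
  calc ∫⁻ ω, ENNReal.ofReal ((|(desc R P v ω n t : ℝ) - desc R Q v ω n t| *
        ((2 * a + 1 : ℕ) : ℝ) ^ (n - t)) ^ q) ∂(Measure.infinitePi fun _ : ℤ => μ)
      ≤ ∫⁻ ω, ∑ s ∈ Finset.range t, ENNReal.ofReal ((((2 * a + 1 : ℕ) : ℝ) ^ (n - s - 1)) ^ q) *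
        (ENNReal.ofReal 5 * (if desc R P v ω n s = desc R Q v ω n s then
        ENNReal.ofReal (φ (R.s (cv a P v (n - s - 1) (desc R P v ω n s)) (ω (n - s - 1)))
          (R.s (cv a Q v (n - s - 1) (desc R Q v ω n s)) (ω (n - s - 1)))) else 0))
        ∂(Measure.infinitePi fun _ : ℤ => μ) := lintegral_mono hdet
    _ = ∑ s ∈ Finset.range t, ENNReal.ofReal ((((2 * a + 1 : ℕ) : ℝ) ^ (n - s - 1)) ^ q) *
        (ENNReal.ofReal 5 * ∫⁻ ω, (if desc R P v ω n s = desc R Q v ω n s then
        ENNReal.ofReal (φ (R.s (cv a P v (n - s - 1) (desc R P v ω n s)) (ω (n - s - 1)))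
          (R.s (cv a Q v (n - s - 1) (desc R Q v ω n s)) (ω (n - s - 1)))) else 0)
        ∂(Measure.infinitePi fun _ : ℤ => μ)) := by
        rw [lintegral_finset_sum]
        · apply Finset.sum_congr rfl
          intro s _
          rw [lintegral_const_mul _ ((hmeas s).const_mul _), lintegral_const_mul _ (hmeas s)]
        · intro s _
          exact ((hmeas s).const_mul _).const_mul _
    _ ≤ ∑ s ∈ Finset.range t, ENNReal.ofReal ((((2 * a + 1 : ℕ) : ℝ) ^ (n - s - 1)) ^ q) *
        (ENNReal.ofReal 5 * (ENNReal.ofReal (2 / mm) *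
          ∫⁻ z, ENNReal.ofReal (tw a φ D v (n - s - 1) z.1 z.2) ∂π)) := by
        apply Finset.sum_le_sum
        intro s _
        gcongr
        exact level_bound hI R hp.φ_nonneg hp.D_pos.le P Q π hπ1 hπ2 v hv n hP hQ s
    _ = _ := by
        rw [Finset.mul_sum]
        apply Finset.sum_congr rfl
        intro s _
        have h10 : ENNReal.ofReal 5 * ENNReal.ofReal (2 / mm) = ENNReal.ofReal (10 / mm) := by
          rw [← ENNReal.ofReal_mul (by norm_num)]
          congr 1
          ring
        rw [← mul_assoc (ENNReal.ofReal 5), h10]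
        ring

end Pool.Agent.Helper25PR
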