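import Pool.Agent.Helper25_PR.Law

/-!
PAIR, deterministic part: comparison of two descents (MP_ee92c9_pr).
-/

set_option autoImplicit false

open MeasureTheory ProbabilityTheory
open scoped ENNReal NNReal

namespace Pool.Agent.Helper25PR

open Pool.Agent.Helper91PC Pool.Agent.Helper91PR

theorem child_sub (a : ℕ) (i : ℤ) (c d : Fin (2 * a + 1)) :
    ((child a i c : ℤ) : ℝ) - (child a i d : ℤ) = ((c : ℕ) : ℝ) - ((d : ℕ) : ℝ) := by
  unfold child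
  push_cast
  ring

/-- growth of the difference of two descents -/
theorem growth (a : ℕ) (u w : ℕ → ℤ) (c d : ℕ → Fin (2 * a + 1))
    (hu : ∀ s, u (s + 1) = child a (u s) (c s)) (hw : ∀ s, w (s + 1) = child a (w s) (d s))
    (s r : ℕ) :
    |(u (s + r) : ℝ) - w (s + r)| ≤ |(u s : ℝ) - w s| * ((2 * a + 1 : ℕ) : ℝ) ^ r
      + ((2 * a + 1 : ℕ) : ℝ) ^ r - 1 := by
  induction r with
  | zero => simp
  | succ r ih =>
    have h1 : ((u (s + (r + 1)) : ℤ) : ℝ) - w (s + (r + 1))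
        = ((2 * a + 1 : ℕ) : ℝ) * ((u (s + r) : ℝ) - w (s + r))
          + (((c (s + r) : ℕ) : ℝ) - ((d (s + r) : ℕ) : ℝ)) := by
      rw [← add_assoc, hu, hw]
      unfold child
      push_cast
      ring
    have h2 : |((c (s + r) : ℕ) : ℝ) - ((d (s + r) : ℕ) : ℝ)| ≤ ((2 * a + 1 : ℕ) : ℝ) - 1 := by
      have hc : ((c (s + r) : ℕ) : ℝ) ≤ 2 * a := by
        have := (c (s + r)).2
        have h3 : (c (s + r) : ℕ) ≤ 2 * a := by omega
        exact_mod_cast h3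
      have hd : ((d (s + r) : ℕ) : ℝ) ≤ 2 * a := by
        have := (d (s + r)).2
        have h3 : (d (s + r) : ℕ) ≤ 2 * a := by omega
        exact_mod_cast h3
      have hc0 : (0 : ℝ) ≤ ((c (s + r) : ℕ) : ℝ) := Nat.cast_nonneg _
      have hd0 : (0 : ℝ) ≤ ((d (s + r) : ℕ) : ℝ) := Nat.cast_nonneg _
      rw [abs_le]
      push_cast
      constructor <;> linarith
    have hM : (0 : ℝ) ≤ ((2 * a + 1 : ℕ) : ℝ) := Nat.cast_nonneg _
    rw [h1]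
    calc |((2 * a + 1 : ℕ) : ℝ) * ((u (s + r) : ℝ) - w (s + r))
          + (((c (s + r) : ℕ) : ℝ) - ((d (s + r) : ℕ) : ℝ))|
        ≤ |((2 * a + 1 : ℕ) : ℝ) * ((u (s + r) : ℝ) - w (s + r))|
          + |((c (s + r) : ℕ) : ℝ) - ((d (s + r) : ℕ) : ℝ)| := abs_add_le _ _
      _ ≤ ((2 * a + 1 : ℕ) : ℝ) * (|(u s : ℝ) - w s| * ((2 * a + 1 : ℕ) : ℝ) ^ r
          + ((2 * a + 1 : ℕ) : ℝ) ^ r - 1) + (((2 * a + 1 : ℕ) : ℝ) - 1) := by
          rw [abs_mul, abs_of_nonneg hM]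
          exact add_le_add (mul_le_mul_of_nonneg_left ih hM) h2
      _ = _ := by rw [pow_succ]; ring

/-- first difference -/
theorem first_diff {u w : ℕ → ℤ} (h0 : u 0 = w 0) {t : ℕ} (ht : u t ≠ w t) :
    ∃ s < t, u s = w s ∧ u (s + 1) ≠ w (s + 1) := by
  induction t with
  | zero => exact absurd h0 ht
  | succ t ih =>
    by_cases h : u t = w t
    · exact ⟨t, Nat.lt_succ_self t, h, ht⟩
    · obtain ⟨s, hs, h1, h2⟩ := ih h
      exact ⟨s, by omega, h1, h2⟩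

/-- the deterministic bound -/
theorem det_bound {a : ℕ} {q : ℝ} {φ : Fin (2 * a + 1) → Fin (2 * a + 1) → ℝ} {D : ℝ}
    (hp : Par a q φ D) (u w : ℕ → ℤ) (c d : ℕ → Fin (2 * a + 1)) (h0 : u 0 = w 0)
    (hu : ∀ s, u (s + 1) = child a (u s) (c s)) (hw : ∀ s, w (s + 1) = child a (w s) (d s))
    (n : ℤ) (t : ℕ) :
    ENNReal.ofReal ((|(u t : ℝ) - w t| * ((2 * a + 1 : ℕ) : ℝ) ^ (n - t)) ^ q) ≤
      ∑ s ∈ Finset.range t, ENNReal.ofReal ((((2 * a + 1 : ℕ) : ℝ) ^ (n - s - 1)) ^ q) *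
        (if u s = w s then ENNReal.ofReal (5 * φ (c s) (d s)) else 0) := by
  have hM0 : (0 : ℝ) < ((2 * a + 1 : ℕ) : ℝ) := by positivity
  by_cases ht : u t = w t
  · rw [ht, sub_self, abs_zero, zero_mul, Real.zero_rpow hp.q_pos.ne', ENNReal.ofReal_zero]
    exact zero_le
  · obtain ⟨s, hs, h1, h2⟩ := first_diff h0 ht
    have hcd : c s ≠ d s := by
      intro h
      apply h2
      rw [hu, hw, h1, h]
    have hdiff : (u (s + 1) : ℝ) - w (s + 1) = ((c s : ℕ) : ℝ) - ((d s : ℕ) : ℝ) := by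
      rw [hu, hw, h1]
      exact child_sub a _ _ _
    obtain ⟨r, hr⟩ : ∃ r, t = s + 1 + r := ⟨t - (s + 1), by omega⟩
    have h3 := growth a u w c d hu hw (s + 1) r
    rw [← hr, hdiff] at h3
    have h4 : |(u t : ℝ) - w t| * ((2 * a + 1 : ℕ) : ℝ) ^ (n - t)
        ≤ (|((c s : ℕ) : ℝ) - ((d s : ℕ) : ℝ)| + 1) * ((2 * a + 1 : ℕ) : ℝ) ^ (n - s - 1) := by
      have h5 : ((2 * a + 1 : ℕ) : ℝ) ^ r * ((2 * a + 1 : ℕ) : ℝ) ^ (n - t)
          = ((2 * a + 1 : ℕ) : ℝ) ^ (n - s - 1) := by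
        rw [← zpow_natCast, ← zpow_add₀ hM0.ne']
        congr 1
        rw [hr]; push_cast; ring
      calc |(u t : ℝ) - w t| * ((2 * a + 1 : ℕ) : ℝ) ^ (n - t)
          ≤ ((|((c s : ℕ) : ℝ) - ((d s : ℕ) : ℝ)| + 1) * ((2 * a + 1 : ℕ) : ℝ) ^ r)
            * ((2 * a + 1 : ℕ) : ℝ) ^ (n - t) := by
            apply mul_le_mul_of_nonneg_right _ (zpow_nonneg hM0.le _)
            linarith
        _ = _ := by rw [mul_assoc, h5]
    have h6 : (|(u t : ℝ) - w t| * ((2 * a + 1 : ℕ) : ℝ) ^ (n - t)) ^ q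
        ≤ (((2 * a + 1 : ℕ) : ℝ) ^ (n - s - 1)) ^ q * (5 * φ (c s) (d s)) := by
      calc (|(u t : ℝ) - w t| * ((2 * a + 1 : ℕ) : ℝ) ^ (n - t)) ^ q
          ≤ ((|((c s : ℕ) : ℝ) - ((d s : ℕ) : ℝ)| + 1) * ((2 * a + 1 : ℕ) : ℝ) ^ (n - s - 1)) ^ q :=
            Real.rpow_le_rpow (by positivity) h4 hp.q_pos.le
        _ = (|((c s : ℕ) : ℝ) - ((d s : ℕ) : ℝ)| + 1) ^ q
            * (((2 * a + 1 : ℕ) : ℝ) ^ (n - s - 1)) ^ q :=
            Real.mul_rpow (by positivity) (zpow_nonneg hM0.le _)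
        _ ≤ (5 * φ (c s) (d s)) * (((2 * a + 1 : ℕ) : ℝ) ^ (n - s - 1)) ^ q :=
            mul_le_mul_of_nonneg_right (hp.pow_le _ _ hcd)
              (Real.rpow_nonneg (zpow_nonneg hM0.le _) _)
        _ = _ := mul_comm _ _
    calc ENNReal.ofReal ((|(u t : ℝ) - w t| * ((2 * a + 1 : ℕ) : ℝ) ^ (n - t)) ^ q)
        ≤ ENNReal.ofReal ((((2 * a + 1 : ℕ) : ℝ) ^ (n - s - 1)) ^ q * (5 * φ (c s) (d s))) :=
          ENNReal.ofReal_le_ofReal h6
      _ = ENNReal.ofReal ((((2 * a + 1 : ℕ) : ℝ) ^ (n - s - 1)) ^ q) *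
        (if u s = w s then ENNReal.ofReal (5 * φ (c s) (d s)) else 0) := by
          rw [if_pos h1, ENNReal.ofReal_mul]
          exact Real.rpow_nonneg (zpow_nonneg hM0.le _) _
      _ ≤ _ := Finset.single_le_sum (f := fun s : ℕ =>
          ENNReal.ofReal ((((2 * a + 1 : ℕ) : ℝ) ^ (n - (s : ℤ) - 1)) ^ q) *
          (if u s = w s then ENNReal.ofReal (5 * φ (c s) (d s)) else 0))
          (fun _ _ => zero_le) (Finset.mem_range.2 hs)

end Pool.Agent.Helper25PR
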